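import Pool.Agent.helper26.IM.SpecA

/-!
# INT: the global equation
-/

set_option autoImplicit false

open Finset

namespace Pool.Agent.helper26.IM

open Pool.Agent.RRank Pool.Agent.helper35.MR

theorem INT_mono {X Y Z K : Type} [Field K] {T : X → Y → Z → K} {E E' : Set (X × Y × Z)}
    (h : EqOn T E) (hs : E' ⊆ E) : EqOn T E' := by
  obtain ⟨N, q, α, β, γ, h⟩ := h
  exact ⟨N, q, α, β, γ, fun x y z hx => h x y z (hs hx)⟩

theorem INT_empty {X Y Z K : Type} [Field K] (T : X → Y → Z → K) :
    EqOn T (∅ : Set (X × Y × Z)) :=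
  ⟨0, 0, fun _ i => i.elim0, fun _ i => i.elim0, fun _ i => i.elim0, fun _ _ _ hx =>
    absurd hx (Set.notMem_empty _)⟩

/-- the filter of the complements -/
def INT_filter (hE : EQM_stmt) {X Y Z K : Type} [Field K] (T : X → Y → Z → K) :
    Filter (X × Y × Z) where
  sets := {S | EqOn T Sᶜ}
  univ_sets := by
    show EqOn T (Set.univ : Set (X × Y × Z))ᶜ
    rw [Set.compl_univ]
    exact INT_empty T
  sets_of_superset := by
    intro S S' h hs
    exact INT_mono h (Set.compl_subset_compl.2 hs)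
  inter_sets := by
    intro S S' h h'
    show EqOn T (S ∩ S')ᶜ
    rw [Set.compl_inter]
    exact hE K X Y Z T _ _ h h'

theorem INT (hE : EQM_stmt) (hA : INA_stmt) : INT_stmt := by
  intro l hl K _ _ X Y Z T h1 h2
  have key : EqOn T (Set.univ : Set (X × Y × Z)) := by
    by_contra hcon
    have hne : (INT_filter hE T).NeBot := by
      refine ⟨fun hbot => hcon ?_⟩
      have h3 : (∅ : Set (X × Y × Z)) ∈ INT_filter hE T := by
        rw [hbot]
        trivial
      have h4 : EqOn T (∅ : Set (X × Y × Z))ᶜ := h3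
      rwa [Set.compl_empty] at h4
    obtain ⟨E, hE1, hE2⟩ := hA l hl K X Y Z T h1 h2 (Ultrafilter.of (INT_filter hE T))
    have h3 : Eᶜ ∈ INT_filter hE T := by
      show EqOn T Eᶜᶜ
      rw [compl_compl]
      exact hE2
    have h4 : Eᶜ ∈ Ultrafilter.of (INT_filter hE T) := Ultrafilter.of_le _ h3
    exact (Ultrafilter.compl_mem_iff_notMem.1 h4) hE1
  obtain ⟨N, q, α, β, γ, h⟩ := key
  exact ⟨N, q, α, β, γ, fun x y z => h x y z (Set.mem_univ _)⟩

end Pool.Agent.helper26.IM
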