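import Pool.Agent.helper26.IM.SpecA

/-!
# UNB: uniform bounds for the minimal equations
-/

set_option autoImplicit false

open Finset

namespace Pool.Agent.helper26.IM

open Pool.Agent.RRank Pool.Agent.helper35.MR

/-- all coefficients have degree at most `m` in the variable `k` -/
def UNB_Q {d : ℕ} {K : Type} [Field K] (k : Fin d) (m : ℕ)
    (P : Polynomial (MvPolynomial (Fin d) K)) : Prop :=
  ∀ i, (P.coeff i).degreeOf k ≤ m

theorem UNB_Q_zero {d : ℕ} {K : Type} [Field K] (k : Fin d) (m : ℕ) :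
    UNB_Q k m (0 : Polynomial (MvPolynomial (Fin d) K)) := fun i => by
  rw [Polynomial.coeff_zero, MvPolynomial.degreeOf_zero]
  exact Nat.zero_le _

theorem UNB_Q_one {d : ℕ} {K : Type} [Field K] (k : Fin d) (m : ℕ) :
    UNB_Q k m (1 : Polynomial (MvPolynomial (Fin d) K)) := fun i => by
  rw [Polynomial.coeff_one]
  split_ifs
  · rw [MvPolynomial.degreeOf_one]
    exact Nat.zero_le _
  · rw [MvPolynomial.degreeOf_zero]
    exact Nat.zero_le _

theorem UNB_Q_add {d : ℕ} {K : Type} [Field K] {k : Fin d} {m : ℕ}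
    {P Q : Polynomial (MvPolynomial (Fin d) K)} (hP : UNB_Q k m P) (hQ : UNB_Q k m Q) :
    UNB_Q k m (P + Q) := fun i => by
  rw [Polynomial.coeff_add]
  exact (MvPolynomial.degreeOf_add_le _ _ _).trans (max_le (hP i) (hQ i))

theorem UNB_Q_neg {d : ℕ} {K : Type} [Field K] {k : Fin d} {m : ℕ}
    {P : Polynomial (MvPolynomial (Fin d) K)} (hP : UNB_Q k m P) : UNB_Q k m (-P) := fun i => by
  rw [Polynomial.coeff_neg, MvPolynomial.degreeOf_neg]
  exact hP i

theorem UNB_Q_mul {d : ℕ} {K : Type} [Field K] {k : Fin d} {m m' : ℕ}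
    {P Q : Polynomial (MvPolynomial (Fin d) K)} (hP : UNB_Q k m P) (hQ : UNB_Q k m' Q) :
    UNB_Q k (m + m') (P * Q) := fun i => by
  rw [Polynomial.coeff_mul]
  refine (MvPolynomial.degreeOf_sum_le _ _ _).trans (Finset.sup_le fun x _ => ?_)
  exact (MvPolynomial.degreeOf_mul_le _ _ _).trans (add_le_add (hP _) (hQ _))

theorem UNB_Q_sum {d : ℕ} {K : Type} [Field K] {k : Fin d} {m : ℕ} {ι : Type} (s : Finset ι)
    (P : ι → Polynomial (MvPolynomial (Fin d) K)) (h : ∀ i ∈ s, UNB_Q k m (P i)) :
    UNB_Q k m (∑ i ∈ s, P i) := by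
  classical
  induction s using Finset.induction_on with
  | empty => simpa using UNB_Q_zero k m
  | insert a s ha ih =>
    rw [Finset.sum_insert ha]
    exact UNB_Q_add (h a (Finset.mem_insert_self _ _))
      (ih fun i hi => h i (Finset.mem_insert_of_mem hi))

theorem UNB_Q_prod {d : ℕ} {K : Type} [Field K] {k : Fin d} {m : ℕ} {ι : Type} (s : Finset ι)
    (P : ι → Polynomial (MvPolynomial (Fin d) K)) (h : ∀ i ∈ s, UNB_Q k m (P i)) :
    UNB_Q k (s.card * m) (∏ i ∈ s, P i) := by
  classical
  induction s using Finset.induction_on with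
  | empty => simpa using UNB_Q_one k 0
  | insert a s ha ih =>
    rw [Finset.prod_insert ha, Finset.card_insert_of_notMem ha]
    have h1 := UNB_Q_mul (h a (Finset.mem_insert_self _ _))
      (ih fun i hi => h i (Finset.mem_insert_of_mem hi))
    have h2 : m + s.card * m = (s.card + 1) * m := by ring
    rw [h2] at h1
    exact h1

theorem UNB_charpoly {d : ℕ} {K : Type} [Field K] {ι : Type} [Fintype ι] [DecidableEq ι]
    (B : Matrix ι ι (MvPolynomial (Fin d) K)) (k : Fin d) (m : ℕ)
    (h : ∀ a b, (B a b).degreeOf k ≤ m) : UNB_Q k (Fintype.card ι * m) B.charpoly := by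
  rw [Matrix.charpoly, Matrix.det_apply]
  refine UNB_Q_sum _ _ fun σ _ => ?_
  have h1 : UNB_Q k (Fintype.card ι * m) (∏ i, B.charmatrix (σ i) i) := by
    have h2 := UNB_Q_prod (k := k) (m := m) Finset.univ (fun i => B.charmatrix (σ i) i)
      (fun i _ => ?_)
    · exact h2
    · rw [Matrix.charmatrix_apply, sub_eq_add_neg]
      refine UNB_Q_add ?_ (UNB_Q_neg ?_)
      · intro j
        rw [Matrix.diagonal_apply]
        split_ifs
        · rw [Polynomial.coeff_X]
          split_ifs
          · rw [MvPolynomial.degreeOf_one]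
            exact Nat.zero_le _
          · rw [MvPolynomial.degreeOf_zero]
            exact Nat.zero_le _
        · rw [Polynomial.coeff_zero, MvPolynomial.degreeOf_zero]
          exact Nat.zero_le _
      · intro j
        rw [Polynomial.coeff_C]
        split_ifs
        · exact h _ _
        · rw [MvPolynomial.degreeOf_zero]
          exact Nat.zero_le _
  rcases Int.units_eq_one_or (Equiv.Perm.sign σ) with h3 | h3
  · rw [h3, one_smul]
    exact h1
  · rw [h3, Units.neg_smul, one_smul]
    exact UNB_Q_neg h1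

/-- Noether normalisation, in coordinates -/
theorem UNB_noether (K : Type) [Field K] (F : Type) [Field F] [Algebra K F] (t : ℕ)
    (α : Fin t → F) : ∃ (d : ℕ) (lam : Fin d → F), AlgebraicIndependent K lam ∧
    (∀ i, lam i ∈ Algebra.adjoin K (Set.range α)) ∧ ∃ (J : ℕ) (ρ : Fin J → F), (∃ j, ρ j ≠ 0) ∧
    ∃ p : Fin t → Fin J → Fin J → MvPolynomial (Fin d) K, ∀ s j,
      α s * ρ j = ∑ j', MvPolynomial.aeval lam (p s j j') * ρ j' := by
  classical
  have hft : Algebra.FiniteType K (Algebra.adjoin K (Set.range α)) :=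
    (Subalgebra.fg_iff_finiteType _).1 (Subalgebra.fg_def.2 ⟨Set.range α, Set.finite_range α, rfl⟩)
  obtain ⟨d, g, hg, hfin⟩ :=
    exists_finite_inj_algHom_of_fg K (Algebra.adjoin K (Set.range α))
  set lam : Fin d → F := fun i => (g (MvPolynomial.X i) : F) with hlam
  have hval : ∀ q : MvPolynomial (Fin d) K, MvPolynomial.aeval lam q = (g q : F) := by
    intro q
    have h1 : MvPolynomial.aeval lam = (Algebra.adjoin K (Set.range α)).val.comp g := by
      refine MvPolynomial.algHom_ext fun i => ?_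
      simp [hlam]
    rw [h1]
    rfl
  refine ⟨d, lam, ?_, fun i => (g (MvPolynomial.X i)).2, ?_⟩
  · rw [AlgebraicIndependent]
    intro q q' h
    rw [hval, hval] at h
    exact hg (Subtype.ext h)
  · let _ : Algebra (MvPolynomial (Fin d) K) (Algebra.adjoin K (Set.range α)) :=
      g.toRingHom.toAlgebra
    have hmf : Module.Finite (MvPolynomial (Fin d) K) (Algebra.adjoin K (Set.range α)) := hfin
    obtain ⟨J, s, hs⟩ := Module.Finite.exists_fin (R := MvPolynomial (Fin d) K)
      (M := Algebra.adjoin K (Set.range α))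
    have hrep : ∀ x : Algebra.adjoin K (Set.range α), ∃ c : Fin J → MvPolynomial (Fin d) K,
        (x : F) = ∑ j, MvPolynomial.aeval lam (c j) * (s j : F) := by
      intro x
      have hx : x ∈ Submodule.span (MvPolynomial (Fin d) K) (Set.range s) := by
        rw [hs]
        trivial
      rw [Submodule.mem_span_range_iff_exists_fun] at hx
      obtain ⟨c, hc⟩ := hx
      refine ⟨c, ?_⟩
      rw [← hc, AddSubmonoidClass.coe_finsetSum]
      refine Finset.sum_congr rfl fun j _ => ?_
      rw [hval, Algebra.smul_def]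
      rfl
    refine ⟨J, fun j => (s j : F), ?_, ?_⟩
    · obtain ⟨c, hc⟩ := hrep 1
      by_contra hcon
      push Not at hcon
      have h1 : (1 : F) = 0 := by
        have h2 : ((1 : Algebra.adjoin K (Set.range α)) : F) = 1 := rfl
        rw [← h2, hc]
        exact Finset.sum_eq_zero fun j _ => by rw [hcon j, mul_zero]
      exact one_ne_zero h1
    · have hp : ∀ (i : Fin t) (j : Fin J), ∃ c : Fin J → MvPolynomial (Fin d) K,
          α i * (s j : F) = ∑ j', MvPolynomial.aeval lam (c j') * (s j' : F) := by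
        intro i j
        exact hrep (⟨α i, Algebra.subset_adjoin ⟨i, rfl⟩⟩ * s j)
      choose p hp using hp
      exact ⟨p, hp⟩

theorem UNB : UNB_stmt := by
  intro K _ F _ _ t N α
  classical
  obtain ⟨d, lam, hind, hmem, J, ρ, ⟨j0, hj0⟩, p, hp⟩ := UNB_noether K F t α
  refine ⟨d, lam, hind, hmem, ?_⟩
  -- the bound of the degrees
  obtain ⟨D0, hD0⟩ : ∃ D0 : ℕ, ∀ s j j' k, (p s j j').degreeOf k ≤ D0 := by
    refine ⟨∑ s, ∑ j, ∑ j', ∑ k, (p s j j').degreeOf k, fun s j j' k => ?_⟩
    refine le_trans ?_ (Finset.single_le_sum (fun _ _ => Nat.zero_le _) (Finset.mem_univ s))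
    refine le_trans ?_ (Finset.single_le_sum (fun _ _ => Nat.zero_le _) (Finset.mem_univ j))
    refine le_trans ?_ (Finset.single_le_sum (fun _ _ => Nat.zero_le _) (Finset.mem_univ j'))
    exact Finset.single_le_sum (f := fun k => (p s j j').degreeOf k)
      (fun _ _ => Nat.zero_le _) (Finset.mem_univ k)
  refine ⟨Fintype.card (Fin N × Fin J), Fintype.card (Fin N × Fin J) * D0, ?_⟩
  rintro e ⟨c, hc, heq⟩
  have hkk : ∀ i, ∃ κ : Fin t → K, ∑ s, κ s • α s = c i := fun i =>
    (Submodule.mem_span_range_iff_exists_fun K).1 (hc i)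
  choose κ hκ using hkk
  -- the matrix
  set B : Matrix (Fin N × Fin J) (Fin N × Fin J) (MvPolynomial (Fin d) K) := fun a b =>
    if (a.1 : ℕ) + 1 < N then (if (b.1 : ℕ) = (a.1 : ℕ) + 1 ∧ b.2 = a.2 then 1 else 0)
    else -∑ s, MvPolynomial.C (κ b.1 s) * p s a.2 b.2 with hB
  have hBdeg : ∀ k a b, (B a b).degreeOf k ≤ D0 := by
    intro k a b
    simp only [hB]
    split_ifs
    · rw [MvPolynomial.degreeOf_one]
      exact Nat.zero_le _
    · rw [MvPolynomial.degreeOf_zero]
      exact Nat.zero_le _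
    · rw [MvPolynomial.degreeOf_neg]
      refine (MvPolynomial.degreeOf_sum_le _ _ _).trans (Finset.sup_le fun s _ => ?_)
      exact (MvPolynomial.degreeOf_C_mul_le _ _ _).trans (hD0 _ _ _ _)
  set f : MvPolynomial (Fin d) K →+* F :=
    (MvPolynomial.aeval lam : MvPolynomial (Fin d) K →ₐ[K] F).toRingHom with hf
  have hfa : ∀ q, f q = MvPolynomial.aeval lam q := fun q => rfl
  set v : Fin N × Fin J → F := fun a => e ^ (a.1 : ℕ) * ρ a.2 with hv
  have hN : 0 < N := by
    rcases Nat.eq_zero_or_pos N with h | h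
    · exfalso
      subst h
      simp at heq
    · exact h
  have hBv : ∀ a, e * v a = ∑ b, f (B a b) * v b := by
    rintro ⟨i, j⟩
    by_cases hi : (i : ℕ) + 1 < N
    · rw [Finset.sum_eq_single (⟨(⟨(i : ℕ) + 1, hi⟩ : Fin N), j⟩ : Fin N × Fin J)]
      · simp only [hB, hv, if_pos hi, and_self, if_true, map_one, one_mul]
        ring
      · rintro ⟨i', j'⟩ _ hne
        have h1 : ¬ ((i' : ℕ) = (i : ℕ) + 1 ∧ j' = j) := by
          rintro ⟨h1, h2⟩
          exact hne (Prod.ext (Fin.ext h1) h2)
        simp only [hB, if_pos hi, if_neg h1, map_zero, zero_mul]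
      · intro h
        exact absurd (Finset.mem_univ _) h
    · have hi' : (i : ℕ) + 1 = N := by
        have := i.2
        omega
      have e1 : e * v (i, j) = e ^ N * ρ j := by
        simp only [hv]
        rw [← mul_assoc, ← pow_succ', hi']
      have e2 : e ^ N = -∑ i' : Fin N, c i' * e ^ (i' : ℕ) := eq_neg_of_add_eq_zero_left heq
      rw [e1, e2, Fintype.sum_prod_type, neg_mul, Finset.sum_mul, ← Finset.sum_neg_distrib]
      refine Finset.sum_congr rfl fun i' _ => ?_
      simp only [hB, if_neg hi, hv, map_neg, map_sum, map_mul, neg_mul, Finset.sum_neg_distrib]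
      congr 1
      have e3 : ∀ q : K, f (MvPolynomial.C q) = algebraMap K F q := fun q => by
        rw [hfa, MvPolynomial.aeval_C]
      rw [← hκ i']
      simp only [e3, Algebra.smul_def, Finset.sum_mul]
      rw [Finset.sum_comm]
      refine Finset.sum_congr rfl fun s _ => ?_
      have e4 := hp s j
      calc algebraMap K F (κ i' s) * α s * e ^ (i' : ℕ) * ρ j
          = algebraMap K F (κ i' s) * e ^ (i' : ℕ) * (α s * ρ j) := by ring
        _ = ∑ j', algebraMap K F (κ i' s) * f (p s j j') * (e ^ (i' : ℕ) * ρ j') := by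
          rw [e4, Finset.mul_sum]
          refine Finset.sum_congr rfl fun j' _ => ?_
          rw [hfa]
          ring
  refine ⟨B.charpoly, B.charpoly_monic, B.charpoly_natDegree_eq_dim, fun i k =>
    UNB_charpoly B k D0 (hBdeg k) i, ?_⟩
  rw [Polynomial.eval₂_eq_eval_map, ← Matrix.charpoly_map, Matrix.eval_charpoly,
    ← Matrix.exists_mulVec_eq_zero_iff]
  refine ⟨v, fun h0 => ?_, ?_⟩
  · have h1 := congrFun h0 (⟨0, hN⟩, j0)
    simp only [hv, pow_zero, one_mul, Pi.zero_apply] at h1
    exact hj0 h1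
  · funext a
    rw [Matrix.sub_mulVec, Pi.sub_apply, Pi.zero_apply, sub_eq_zero]
    have h1 : (Matrix.scalar (Fin N × Fin J) e).mulVec v a = e * v a := by
      rw [Matrix.scalar_apply, Matrix.mulVec_diagonal]
    rw [h1, hBv a]
    rfl

end Pool.Agent.helper26.IM
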